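import Pool.Agent.H135R2.VS.Conn

set_option autoImplicit false
set_option linter.unusedSectionVars false

/-! # Linked pairs in dimension `d + 1` are globally linked in dimension `d`: the core argument -/

namespace Pool.Agent.Helper45GL

open Set Matrix Pool.Agent.H135R2.VS

variable {V : Type*} {d : ℕ} [Fintype V] [DecidableEq V]

/-- Add the coordinate function `z` to the configuration `p`. -/
def lift (p : Conf d V) (z : V → ℝ) : Conf (d + 1) V := fun i => Fin.cons (z i) (p i)

/-- If `p` is generic, then `(z, p)` is generic for a dense set of `z`. -/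
theorem dense_lift {p : Conf d V} (hp : Gen p) : Dense {z : V → ℝ | Gen (lift p z)} := by
  have hp' : AlgebraicIndependent (⊥ : SF) (unc p) := bot_of_rat hp
  have hc : Countable (adj ⊥ (range (unc p))) := countable_adj (countable_range _)
  refine (dense_algInd (ι := V) (K := adj ⊥ (range (unc p)))).mono ?_
  intro z hz
  have h1 := algInd_sum hp' hz
  have h2 : AlgebraicIndependent ℚ (Sum.elim (unc p) z) := rat_of_sf h1
  let e : V × Fin (d + 1) → (V × Fin d) ⊕ V := fun i =>
    Fin.cases (motive := fun _ => (V × Fin d) ⊕ V) (Sum.inr i.1) (fun k => Sum.inl (i.1, k)) i.2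
  have he : Function.Injective e := by
    rintro ⟨i, a⟩ ⟨j, b⟩ hab
    induction a using Fin.cases with
    | zero =>
      induction b using Fin.cases with
      | zero => simpa [e] using hab
      | succ b => simp [e] at hab
    | succ a =>
      induction b using Fin.cases with
      | zero => simp [e] at hab
      | succ b => simpa [e] using hab
  have h3 := h2.comp e he
  have h4 : (Sum.elim (unc p) z) ∘ e = fun i : V × Fin (d + 1) => lift p z i.1 i.2 := by
    ext ⟨i, a⟩
    induction a using Fin.cases with
    | zero => simp [e, lift]
    | succ a => simp [e, lift, unc]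
  rw [h4] at h3
  exact h3

/-- The energy form of weights is continuous in the second argument. -/
theorem continuous_en (ω : V → V → ℝ) (y : V → ℝ) : Continuous fun g : V → ℝ => en ω y g := by
  unfold en
  fun_prop

/-- **Core statement.** Let `p` be generic in dimension `d`, let `q` be equivalent to `p`, and
suppose that for every `z` for which `(z, p)` is generic the row of `u, v` of the rigidity matrix
in dimension `d + 1` is a combination of the rows of the edges of `G` (in the form of an identity
of energy forms). Then `q` and `p` have the same distance between `u` and `v`. -/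
theorem core {G : SimpleGraph V} {p q : Conf d V} (hp : Gen p)
    (hq : ∀ i j, G.Adj i j → fl q q i j = fl p p i j) (u v : V)
    (h : ∀ z : V → ℝ, Gen (lift p z) → ∃ ω : V → V → ℝ, (∀ i j, ¬ G.Adj i j → ω i j = 0) ∧
      ∀ (a : Fin (d + 1)) (g : V → ℝ), en ω (fun i => lift p z i a) g =
        (lift p z u a - lift p z v a) * (g u - g v)) :
    fl q q u v = fl p p u v := by
  have hd := dense_lift hp
  obtain ⟨z₀, hz₀⟩ := hd.nonempty
  obtain ⟨ω₀, hω₀, he₀⟩ := h z₀ hz₀
  have hp₀ : ∀ (a : Fin d) (g : V → ℝ), en ω₀ (fun i => p i a) g =
      (p u a - p v a) * (g u - g v) := by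
    intro a g
    have := he₀ a.succ g
    simpa [lift] using this
  -- the energy form of `ω₀` at the coordinates of `q`
  have key : ∀ (a : Fin d) (g : V → ℝ), en ω₀ (fun i => q i a) g =
      (q u a - q v a) * (g u - g v) := by
    intro a
    have hcl : IsClosed {g : V → ℝ | en ω₀ (fun i => q i a) g = (q u a - q v a) * (g u - g v)} :=
      isClosed_eq (continuous_en _ _) (by fun_prop)
    have hsub : {z : V → ℝ | Gen (lift p z)} ⊆
        {g : V → ℝ | en ω₀ (fun i => q i a) g = (q u a - q v a) * (g u - g v)} := by
      intro z hz
      obtain ⟨ω, hω, he⟩ := h z hz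
      have hstr : Str G p (ω₀ + (-1 : ℝ) • ω) := by
        refine ⟨fun i j hij => ?_, fun b g => ?_⟩
        · simp [hω i j hij, hω₀ i j hij]
        · rw [en_add_w, en_smul_w, hp₀]
          have := he b.succ g
          simp only [lift, Fin.cons_succ] at this
          rw [this]
          ring
      have h1 := (hstr.transfer hp hq).2 a z
      rw [en_add_w, en_smul_w] at h1
      have h2 := he 0 (fun i => q i a)
      simp only [lift, Fin.cons_zero] at h2
      rw [en_symm] at h2
      change en ω₀ (fun i => q i a) z = (q u a - q v a) * (z u - z v)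
      rw [h2] at h1
      linarith
    intro g
    exact (hd.closure_eq ▸ closure_minimal hsub hcl) (mem_univ g)
  have h1 : ∑ i, ∑ j, ω₀ i j * fl q q i j = fl q q u v := by
    rw [sum_fl]
    unfold fl
    exact Finset.sum_congr rfl fun a _ => key a _
  have h2 : ∑ i, ∑ j, ω₀ i j * fl p p i j = fl p p u v := by
    rw [sum_fl]
    unfold fl
    exact Finset.sum_congr rfl fun a _ => hp₀ a _
  rw [← h1, ← h2]
  refine Finset.sum_congr rfl fun i _ => Finset.sum_congr rfl fun j _ => ?_
  by_cases hij : G.Adj i j
  · rw [hq i j hij]
  · rw [hω₀ i j hij, zero_mul, zero_mul]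

end Pool.Agent.Helper45GL
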